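import Mathlib

/-!
# Spaces with a base of subinfinite rank are metacompact

Let `B` be a base of subinfinite rank of a `T1` space and `𝒰` an open cover.  Let `C` be the family
of the members of `B` which are contained in a member of `𝒰`.  A poset without infinite antichains
of elements above a given element is the union of its maximal ideals, and only finitely many of
them have a member containing a given point.  Starting with the maximal ideals of `C` we
repeatedly choose a point `p` of the union of an ideal and pass to the maximal ideals of the family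
of the members not containing `p`, as long as the union of the ideal is not contained in a member
of `C`.  At every point the tree of ideals is finite.
-/

set_option autoImplicit false

open Set TopologicalSpace

universe u

namespace Pool.Agent.Results.MP_03f7b8_gt.SubinfiniteRank

/-- `Γ` is incomparable: no member of `Γ` is contained in another member of `Γ`. -/
def Incomparable {X : Type u} (Γ : Set (Set X)) : Prop :=
  ∀ U ∈ Γ, ∀ V ∈ Γ, U ⊆ V → U = V

/-- `Γ` has subinfinite rank: every incomparable subfamily with nonempty intersection is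
finite. -/
def HasSubinfiniteRank {X : Type u} (Γ : Set (Set X)) : Prop :=
  ∀ A ⊆ Γ, Incomparable A → (⋂₀ A).Nonempty → A.Finite

/-- Every open cover has a point-finite open refinement which is a cover. -/
def Metacompact (X : Type u) [TopologicalSpace X] : Prop :=
  ∀ 𝒰 : Set (Set X), (∀ U ∈ 𝒰, IsOpen U) → ⋃₀ 𝒰 = univ →
    ∃ 𝒱 : Set (Set X), (∀ V ∈ 𝒱, IsOpen V) ∧ ⋃₀ 𝒱 = univ ∧ (∀ V ∈ 𝒱, ∃ U ∈ 𝒰, V ⊆ U) ∧
      ∀ x : X, {V ∈ 𝒱 | x ∈ V}.Finite

section Posets

variable {X : Type u} {C : Set (Set X)}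

/-- there are no infinite sequences of pairwise incomparable members through a point -/
theorem no_seq (hr : HasSubinfiniteRank C) (z : X) (b : ℕ → Set X) (hb : ∀ n, b n ∈ C)
    (hz : ∀ n, z ∈ b n) (h1 : ∀ m n, m < n → ¬ b m ⊆ b n) (h2 : ∀ m n, m < n → ¬ b n ⊆ b m) :
    False := by
  have hne : ∀ m n, b m ⊆ b n → m = n := by
    intro m n h
    rcases lt_trichotomy m n with h' | h' | h'
    · exact absurd h (h1 m n h')
    · exact h'
    · exact absurd h (h2 n m h')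
  have hinj : Function.Injective b := fun m n h => hne m n h.subset
  have hfin : (range b).Finite := by
    refine hr (range b) ?_ ?_ ⟨z, ?_⟩
    · rintro _ ⟨n, rfl⟩
      exact hb n
    · rintro _ ⟨m, rfl⟩ _ ⟨n, rfl⟩ h
      rw [hne m n h]
    · rintro _ ⟨n, rfl⟩
      exact hz n
  exact (Set.infinite_range_of_injective hinj) hfin

/-- any two members of `Q` containing the prime member `P` are contained in a member of `Q` -/
def Prime (Q : Set (Set X)) (P : Set X) : Prop :=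
  P ∈ Q ∧ ∀ D ∈ Q, ∀ E ∈ Q, P ⊆ D → P ⊆ E → ∃ F ∈ Q, D ⊆ F ∧ E ⊆ F

/-- the ideal of `Q` given by `P` -/
def idl (Q : Set (Set X)) (P : Set X) : Set (Set X) :=
  {b | b ∈ Q ∧ ∃ D ∈ Q, b ⊆ D ∧ P ⊆ D}

/-- the ideals of `Q` given by prime members of `Q` -/
def Parts (Q : Set (Set X)) : Set (Set (Set X)) :=
  {ε | ∃ P, Prime Q P ∧ ε = idl Q P}

theorem idl_subset (Q : Set (Set X)) (P : Set X) : idl Q P ⊆ Q := fun _ h => h.1

theorem prime_up {Q : Set (Set X)} {P D : Set X} (h : Prime Q P) (hD : D ∈ Q) (hPD : P ⊆ D) :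
    Prime Q D :=
  ⟨hD, fun _ hE _ hF h1 h2 => h.2 _ hE _ hF (hPD.trans h1) (hPD.trans h2)⟩

theorem idl_le {Q : Set (Set X)} {P P' D : Set X} (h : Prime Q P) (hD : D ∈ Q) (hPD : P ⊆ D)
    (hPD' : P' ⊆ D) : idl Q P ⊆ idl Q P' := by
  rintro b ⟨hb, E, hE, hbE, hPE⟩
  obtain ⟨F, hF, hDF, hEF⟩ := h.2 D hD E hE hPD hPE
  exact ⟨hb, F, hF, hbE.trans hEF, hPD'.trans hDF⟩

theorem idl_eq {Q : Set (Set X)} {P P' D : Set X} (h : Prime Q P) (h' : Prime Q P') (hD : D ∈ Q)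
    (hPD : P ⊆ D) (hPD' : P' ⊆ D) : idl Q P = idl Q P' :=
  (idl_le h hD hPD hPD').antisymm (idl_le h' hD hPD' hPD)

/-- every member with a point is contained in a prime member -/
theorem exists_prime (hr : HasSubinfiniteRank C) {Q : Set (Set X)} (hQ : Q ⊆ C) {b : Set X}
    (hb : b ∈ Q) {z : X} (hz : z ∈ b) : ∃ P, Prime Q P ∧ b ⊆ P := by
  by_contra hcon
  push Not at hcon
  have key : ∀ c : Set X, c ∈ Q ∧ b ⊆ c → ∃ D E : Set X, D ∈ Q ∧ E ∈ Q ∧ c ⊆ D ∧ c ⊆ E ∧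
      ∀ F ∈ Q, D ⊆ F → ¬ E ⊆ F := by
    rintro c ⟨hc, hbc⟩
    have h1 : ¬ Prime Q c := fun h => hcon c h hbc
    unfold Prime at h1
    push Not at h1
    obtain ⟨D, hD, E, hE, hcD, hcE, hF⟩ := h1 hc
    exact ⟨D, E, hD, hE, hcD, hcE, hF⟩
  choose! D E hDE using key
  let c : ℕ → Set X := fun n => Nat.rec b (fun _ s => E s) n
  have hc0 : c 0 = b := rfl
  have hcs : ∀ n, c (n + 1) = E (c n) := fun n => rfl
  have hc : ∀ n, c n ∈ Q ∧ b ⊆ c n := by
    intro n
    induction n with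
    | zero => exact ⟨hb, subset_rfl⟩
    | succ n ih =>
      rw [hcs]
      exact ⟨(hDE _ ih).2.1, ih.2.trans (hDE _ ih).2.2.2.1⟩
  have hstep : ∀ n, c n ⊆ c (n + 1) := by
    intro n
    rw [hcs]
    exact (hDE _ (hc n)).2.2.2.1
  have hmono : Monotone c := monotone_nat_of_le_succ hstep
  have hD : ∀ n, D (c n) ∈ Q ∧ c n ⊆ D (c n) := fun n =>
    ⟨(hDE _ (hc n)).1, (hDE _ (hc n)).2.2.1⟩
  have hno : ∀ n, ∀ F ∈ Q, D (c n) ⊆ F → ¬ c (n + 1) ⊆ F := by
    intro n F hF h1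
    rw [hcs]
    exact (hDE _ (hc n)).2.2.2.2 F hF h1
  refine no_seq hr z (fun n => D (c n)) (fun n => hQ (hD n).1)
    (fun n => (hD n).2 ((hc n).2 hz)) ?_ ?_
  · intro m n hmn h
    exact hno m (D (c n)) (hD n).1 h ((hmono hmn).trans (hD n).2)
  · intro m n hmn h
    exact hno m (D (c m)) (hD m).1 subset_rfl (((hmono hmn).trans (hD n).2).trans h)

/-- every member with a point belongs to one of the ideals -/
theorem exists_part (hr : HasSubinfiniteRank C) {Q : Set (Set X)} (hQ : Q ⊆ C) {b : Set X}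
    (hb : b ∈ Q) {z : X} (hz : z ∈ b) : ∃ ε ∈ Parts Q, b ∈ ε := by
  obtain ⟨P, hP, hbP⟩ := exists_prime hr hQ hb hz
  exact ⟨idl Q P, ⟨P, hP, rfl⟩, hb, P, hP.1, hbP, subset_rfl⟩

/-- only finitely many of the ideals have a member containing a given point -/
theorem finite_parts (hr : HasSubinfiniteRank C) {Q : Set (Set X)} (hQ : Q ⊆ C) (z : X) :
    {ε ∈ Parts Q | z ∈ ⋃₀ ε}.Finite := by
  by_contra hinf
  have hinf : {ε ∈ Parts Q | z ∈ ⋃₀ ε}.Infinite := hinf
  let g := hinf.natEmbedding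
  have h1 : ∀ n : ℕ, ∃ P D : Set X, Prime Q P ∧ ((g n : Set (Set X)) = idl Q P) ∧ D ∈ Q ∧ P ⊆ D ∧
      z ∈ D := by
    intro n
    obtain ⟨⟨P, hP, he⟩, b, hb, hz⟩ := (g n).2
    rw [he] at hb
    obtain ⟨_, D, hD, hbD, hPD⟩ := hb
    exact ⟨P, D, hP, he, hD, hPD, hbD hz⟩
  choose P D hP he hD hPD hzD using h1
  have h2 : ∀ m n, D m ⊆ D n → m = n := by
    intro m n h
    have : (g m : Set (Set X)) = g n := by
      rw [he m, he n]
      exact idl_eq (hP m) (hP n) (hD n) ((hPD m).trans h) (hPD n)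
    exact g.injective (Subtype.ext this)
  exact no_seq hr z D (fun n => hQ (hD n)) hzD (fun m n hmn h => hmn.ne (h2 m n h))
    (fun m n hmn h => hmn.ne' (h2 n m h))

/-- ideals of `C` -/
structure IsIdl (C ε : Set (Set X)) : Prop where
  sub : ε ⊆ C
  down : ∀ b ∈ C, ∀ c ∈ ε, b ⊆ c → b ∈ ε
  dir : ∀ b ∈ ε, ∀ c ∈ ε, ∃ d ∈ ε, b ⊆ d ∧ c ⊆ d

theorem isIdl_part {Q : Set (Set X)} (hQ : Q ⊆ C) (hd : ∀ b ∈ C, ∀ c ∈ Q, b ⊆ c → b ∈ Q)
    {ε : Set (Set X)} (hε : ε ∈ Parts Q) : IsIdl C ε := by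
  obtain ⟨P, hP, rfl⟩ := hε
  refine ⟨(idl_subset Q P).trans hQ, ?_, ?_⟩
  · rintro b hb c ⟨hc, D, hD, hcD, hPD⟩ hbc
    exact ⟨hd b hb c hc hbc, D, hD, hbc.trans hcD, hPD⟩
  · rintro b ⟨hb, D, hD, hbD, hPD⟩ c ⟨hc, E, hE, hcE, hPE⟩
    obtain ⟨F, hF, hDF, hEF⟩ := hP.2 D hD E hE hPD hPE
    exact ⟨F, ⟨hF, F, hF, subset_rfl, hPD.trans hDF⟩, hbD.trans hDF, hcE.trans hEF⟩

/-- the ideal `ε` is terminal: its union is contained in a member of `C` -/
def Terminal (C ε : Set (Set X)) : Prop := ∃ b ∈ C, ⋃₀ ε ⊆ b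

/-- the members which do not contain `p` -/
def next (ε : Set (Set X)) (p : X) : Set (Set X) := {b | b ∈ ε ∧ p ∉ b}

theorem isIdl_child {ε : Set (Set X)} (hε : IsIdl C ε) (p : X) {δ : Set (Set X)}
    (hδ : δ ∈ Parts (next ε p)) : IsIdl C δ :=
  isIdl_part (Q := next ε p) (fun _ h => hε.sub h.1)
    (fun b hb c hc hbc => ⟨hε.down b hb c hc.1 hbc, fun h => hc.2 (hbc h)⟩) hδ

theorem child_subset {ε : Set (Set X)} {p : X} {δ : Set (Set X)}
    (hδ : δ ∈ Parts (next ε p)) : δ ⊆ next ε p := by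
  obtain ⟨P, _, rfl⟩ := hδ
  exact idl_subset _ _

/-- members of a nonterminal ideal which are not contained in given members of `C` -/
theorem exists_big {ε : Set (Set X)} (hε : IsIdl C ε) (ht : ¬ Terminal C ε) {a : Set X}
    (ha : a ∈ ε) (s : Finset (Set X)) (hs : ∀ c ∈ s, c ∈ C) :
    ∃ b ∈ ε, a ⊆ b ∧ ∀ c ∈ s, ¬ b ⊆ c := by
  classical
  induction s using Finset.induction_on with
  | empty => exact ⟨a, ha, subset_rfl, by simp⟩
  | insert c s hc ih =>
    obtain ⟨b, hb, hab, hbs⟩ := ih fun d hd => hs d (Finset.mem_insert_of_mem hd)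
    have h1 : ∃ d ∈ ε, ¬ d ⊆ c := by
      by_contra hcon
      push Not at hcon
      exact ht ⟨c, hs c (Finset.mem_insert_self _ _), sUnion_subset hcon⟩
    obtain ⟨d, hd, hdc⟩ := h1
    obtain ⟨e, he, hbe, hde⟩ := hε.dir b hb d hd
    refine ⟨e, he, hab.trans hbe, fun x hx h => ?_⟩
    rcases Finset.mem_insert.1 hx with rfl | hx
    · exact hdc (hde.trans h)
    · exact hbs x hx (hbe.trans h)

variable (p : Set (Set X) → X)

/-- `δ` is a child of the nonterminal ideal `ε` at the point `z` -/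
def Child (C : Set (Set X)) (p : Set (Set X) → X) (z : X) (δ ε : Set (Set X)) : Prop :=
  IsIdl C ε ∧ ¬ Terminal C ε ∧ δ ∈ Parts (next ε (p ε)) ∧ z ∈ ⋃₀ δ

/-- there are no infinite branches -/
theorem acc_child (hr : HasSubinfiniteRank C)
    (hp : ∀ ε, IsIdl C ε → ¬ Terminal C ε → p ε ∈ ⋃₀ ε) (z : X) (ε : Set (Set X)) :
    Acc (Child C p z) ε := by
  rw [acc_iff_isEmpty_descending_chain]
  refine ⟨?_⟩
  rintro ⟨f, _, hf⟩
  have hid : ∀ n, IsIdl C (f n) := fun n => (hf n).1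
  have hnt : ∀ n, ¬ Terminal C (f n) := fun n => (hf n).2.1
  have hsub1 : ∀ n, f (n + 1) ⊆ next (f n) (p (f n)) := fun n => child_subset (hf n).2.2.1
  have hsub : ∀ n, f (n + 1) ⊆ f n := fun n b hb => (hsub1 n hb).1
  have hanti : Antitone f := antitone_nat_of_succ_le hsub
  have hz : ∀ n, z ∈ ⋃₀ f n := by
    intro n
    obtain ⟨b, hb, hzb⟩ := (hf n).2.2.2
    exact ⟨b, hsub n hb, hzb⟩
  obtain ⟨g, hg1, hg2⟩ := exists_seq_of_forall_finset_exists
    (fun q : ℕ × Set X => q.2 ∈ f q.1 ∧ z ∈ q.2 ∧ p (f q.1) ∈ q.2)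
    (fun q r : ℕ × Set X => q.1 < r.1 ∧ ¬ r.2 ⊆ q.2) (by
      classical
      intro s hs
      let n : ℕ := s.sup Prod.fst + 1
      obtain ⟨b, hb, hzb⟩ := hz n
      obtain ⟨c, hc, hpc⟩ := hp (f n) (hid n) (hnt n)
      obtain ⟨d, hd, hbd, hcd⟩ := (hid n).dir b hb c hc
      obtain ⟨e, he, hde, hes⟩ := exists_big (hid n) (hnt n) hd (s.image Prod.snd) (by
        intro x hx
        obtain ⟨q, hq, rfl⟩ := Finset.mem_image.1 hx
        exact (hid q.1).sub (hs q hq).1)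
      refine ⟨(n, e), ⟨he, hde (hbd hzb), hde (hcd hpc)⟩, fun q hq => ⟨?_, ?_⟩⟩
      · exact Nat.lt_succ_of_le (Finset.le_sup (f := Prod.fst) hq)
      · exact hes q.2 (Finset.mem_image_of_mem _ hq))
  refine no_seq hr z (fun n => (g n).2) (fun n => (hid _).sub (hg1 n).1) (fun n => (hg1 n).2.1)
    ?_ (fun m n hmn => (hg2 m n hmn).2)
  intro m n hmn h
  have h1 : (g m).1 + 1 ≤ (g n).1 := (hg2 m n hmn).1
  have h2 : (g n).2 ∈ f ((g m).1 + 1) := hanti h1 (hg1 n).1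
  exact (hsub1 _ h2).2 (h (hg1 m).2.2)

/-- the nodes -/
inductive Node (C : Set (Set X)) (p : Set (Set X) → X) : Set (Set X) → Prop
  | root (ε : Set (Set X)) (h : ε ∈ Parts C) : Node C p ε
  | step (ε δ : Set (Set X)) (h : Node C p ε) (ht : ¬ Terminal C ε)
      (hδ : δ ∈ Parts (next ε (p ε))) : Node C p δ

theorem Node.isIdl {p : Set (Set X) → X} {ε : Set (Set X)} (h : Node C p ε) : IsIdl C ε := by
  induction h with
  | root ε h => exact isIdl_part subset_rfl (fun b hb _ _ _ => hb) h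
  | step ε δ _ _ hδ ih => exact isIdl_child ih _ hδ

/-- finitely many descendants -/
theorem finite_desc (hr : HasSubinfiniteRank C)
    (hp : ∀ ε, IsIdl C ε → ¬ Terminal C ε → p ε ∈ ⋃₀ ε) (z : X) (ε : Set (Set X)) :
    {δ | Relation.ReflTransGen (fun a b => Child C p z b a) ε δ}.Finite := by
  induction acc_child p hr hp z ε with
  | intro ε _ ih =>
    have hfin : {δ | Child C p z δ ε}.Finite := by
      by_cases hε : IsIdl C ε
      · refine (finite_parts hr (Q := next ε (p ε)) (fun b hb => hε.sub hb.1) z).subset ?_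
        intro δ hδ
        exact ⟨hδ.2.2.1, hδ.2.2.2⟩
      · convert Set.finite_empty
        ext δ
        simp only [Set.mem_ofPred_eq, Set.mem_empty_iff_false, iff_false]
        exact fun h => hε h.1
    have h2 : ({ε} ∪ ⋃ δ ∈ {δ | Child C p z δ ε},
        {η | Relation.ReflTransGen (fun a b => Child C p z b a) δ η}).Finite :=
      (Set.finite_singleton ε).union (hfin.biUnion fun δ hδ => ih δ hδ)
    refine h2.subset ?_
    intro η hη
    rcases Relation.ReflTransGen.cases_head hη with h | ⟨δ, h1, h3⟩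
    · exact Or.inl h.symm
    · exact Or.inr (Set.mem_biUnion (show δ ∈ {δ | Child C p z δ ε} from h1) h3)

theorem finite_nodes (hr : HasSubinfiniteRank C)
    (hp : ∀ ε, IsIdl C ε → ¬ Terminal C ε → p ε ∈ ⋃₀ ε) (z : X) :
    {ε | Node C p ε ∧ z ∈ ⋃₀ ε}.Finite := by
  have h1 : (⋃ ρ ∈ {ρ ∈ Parts C | z ∈ ⋃₀ ρ},
      {η | Relation.ReflTransGen (fun a b => Child C p z b a) ρ η}).Finite :=
    (finite_parts hr subset_rfl z).biUnion fun ρ _ => finite_desc p hr hp z ρ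
  refine h1.subset ?_
  rintro ε ⟨hε, hz⟩
  induction hε with
  | root ε h =>
    exact Set.mem_biUnion (show ε ∈ {ρ ∈ Parts C | z ∈ ⋃₀ ρ} from ⟨h, hz⟩)
      Relation.ReflTransGen.refl
  | step ε δ h ht hδ ih =>
    have hzε : z ∈ ⋃₀ ε := by
      obtain ⟨b, hb, hzb⟩ := hz
      exact ⟨b, (child_subset hδ hb).1, hzb⟩
    obtain ⟨ρ, hρ, hρ2⟩ := Set.mem_iUnion₂.1 (ih hzε)
    exact Set.mem_biUnion hρ (Relation.ReflTransGen.tail hρ2 ⟨h.isIdl, ht, hδ, hz⟩)

end Posets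

/-- A `T1` space with a base of subinfinite rank is metacompact. -/
theorem main (X : Type u) [TopologicalSpace X] [T1Space X] (B : Set (Set X))
    (hB : IsTopologicalBasis B) (hr : HasSubinfiniteRank B) : Metacompact X := by
  classical
  rcases isEmpty_or_nonempty X with hX | hX
  · intro 𝒰 _ _
    exact ⟨∅, by simp, Set.eq_univ_of_forall fun x => isEmptyElim x, by simp,
      fun x => isEmptyElim x⟩
  intro 𝒰 ho hcov
  set C : Set (Set X) := {b | b ∈ B ∧ ∃ U ∈ 𝒰, b ⊆ U} with hC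
  have hCr : HasSubinfiniteRank C := fun A hA h1 h2 => hr A (hA.trans fun b hb => hb.1) h1 h2
  have hCopen : ∀ b ∈ C, IsOpen b := fun b hb => hB.isOpen hb.1
  have hCbase : ∀ x : X, ∀ O : Set X, IsOpen O → x ∈ O → ∃ b ∈ C, x ∈ b ∧ b ⊆ O := by
    intro x O hO hx
    have hxu : x ∈ ⋃₀ 𝒰 := by rw [hcov]; exact mem_univ x
    obtain ⟨U, hU, hxU⟩ := hxu
    obtain ⟨b, hb, hxb, hbO⟩ := hB.exists_subset_of_mem_open (show x ∈ O ∩ U from ⟨hx, hxU⟩)
      (hO.inter (ho U hU))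
    exact ⟨b, ⟨hb, U, hU, hbO.trans inter_subset_right⟩, hxb, hbO.trans inter_subset_left⟩
  -- the choice of the points and of the members containing them
  have hchoice : ∀ ε : Set (Set X), ∃ q : X × Set X, IsIdl C ε → ¬ Terminal C ε →
      q.1 ∈ q.2 ∧ q.2 ∈ ε := by
    intro ε
    by_cases h : ∃ q : X × Set X, q.1 ∈ q.2 ∧ q.2 ∈ ε
    · obtain ⟨q, hq⟩ := h
      exact ⟨q, fun _ _ => hq⟩
    · refine ⟨(Classical.arbitrary X, ∅), fun _ ht => (ht ?_).elim⟩
      obtain ⟨b, hb, _⟩ := hCbase (Classical.arbitrary X) univ isOpen_univ (mem_univ _)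
      refine ⟨b, hb, ?_⟩
      rintro x ⟨c, hc, hxc⟩
      exact (h ⟨(x, c), hxc, hc⟩).elim
  choose q hq using hchoice
  let p : Set (Set X) → X := fun ε => (q ε).1
  let G : Set (Set X) → Set X := fun ε => (q ε).2
  have hpG : ∀ ε, IsIdl C ε → ¬ Terminal C ε → p ε ∈ G ε ∧ G ε ∈ ε := fun ε h1 h2 => hq ε h1 h2
  have hp : ∀ ε, IsIdl C ε → ¬ Terminal C ε → p ε ∈ ⋃₀ ε := fun ε h1 h2 =>
    ⟨G ε, (hpG ε h1 h2).2, (hpG ε h1 h2).1⟩
  let R : Set (Set X) → Set X := fun ε => if Terminal C ε then ⋃₀ ε else G ε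
  have hRt : ∀ ε, Terminal C ε → R ε = ⋃₀ ε := fun ε h => if_pos h
  have hRn : ∀ ε, ¬ Terminal C ε → R ε = G ε := fun ε h => if_neg h
  have hRsub : ∀ ε, Node C p ε → R ε ⊆ ⋃₀ ε := by
    intro ε hε
    by_cases ht : Terminal C ε
    · rw [hRt ε ht]
    · rw [hRn ε ht]
      exact subset_sUnion_of_mem (hpG ε hε.isIdl ht).2
  refine ⟨R '' {ε | Node C p ε}, ?_, ?_, ?_, ?_⟩
  · rintro _ ⟨ε, hε, rfl⟩
    have hε : Node C p ε := hε
    by_cases ht : Terminal C ε
    · rw [hRt ε ht]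
      exact isOpen_sUnion fun b hb => hCopen b (hε.isIdl.sub hb)
    · rw [hRn ε ht]
      exact hCopen _ (hε.isIdl.sub (hpG ε hε.isIdl ht).2)
  · -- cover
    rw [Set.eq_univ_iff_forall]
    intro x
    have key : ∀ ε : Set (Set X), Node C p ε → x ∈ ⋃₀ ε →
        ∃ V ∈ R '' {ε | Node C p ε}, x ∈ V := by
      intro ε
      induction acc_child p hCr hp x ε with
      | intro ε _ ih =>
        intro hε hx
        by_cases ht : Terminal C ε
        · exact ⟨R ε, ⟨ε, hε, rfl⟩, by rw [hRt ε ht]; exact hx⟩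
        by_cases hxG : x ∈ G ε
        · exact ⟨R ε, ⟨ε, hε, rfl⟩, by rw [hRn ε ht]; exact hxG⟩
        have hxp : x ≠ p ε := by
          rintro rfl
          exact hxG (hpG ε hε.isIdl ht).1
        obtain ⟨c, hc, hxc⟩ := hx
        obtain ⟨b, hb, hxb, hbc⟩ := hCbase x (c ∩ {p ε}ᶜ)
          ((hCopen c (hε.isIdl.sub hc)).inter isOpen_compl_singleton) ⟨hxc, hxp⟩
        have hbn : b ∈ next ε (p ε) :=
          ⟨hε.isIdl.down b hb c hc (hbc.trans inter_subset_left), fun h => (hbc h).2 rfl⟩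
        obtain ⟨δ, hδ, hbδ⟩ := exists_part hCr (Q := next ε (p ε))
          (fun a ha => hε.isIdl.sub ha.1) hbn hxb
        have hxδ : x ∈ ⋃₀ δ := ⟨b, hbδ, hxb⟩
        exact ih δ ⟨hε.isIdl, ht, hδ, hxδ⟩ (Node.step ε δ hε ht hδ) hxδ
    obtain ⟨b, hb, hxb, _⟩ := hCbase x univ isOpen_univ (mem_univ x)
    obtain ⟨ε, hε, hbε⟩ := exists_part hCr subset_rfl hb hxb
    obtain ⟨V, hV, hxV⟩ := key ε (Node.root ε hε) ⟨b, hbε, hxb⟩
    exact ⟨V, hV, hxV⟩
  · rintro _ ⟨ε, hε, rfl⟩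
    have hε : Node C p ε := hε
    by_cases ht : Terminal C ε
    · rw [hRt ε ht]
      obtain ⟨b, ⟨_, U, hU, hbU⟩, hεb⟩ := ht
      exact ⟨U, hU, hεb.trans hbU⟩
    · rw [hRn ε ht]
      obtain ⟨_, U, hU, hbU⟩ := hε.isIdl.sub (hpG ε hε.isIdl ht).2
      exact ⟨U, hU, hbU⟩
  · intro x
    refine ((finite_nodes p hCr hp x).image R).subset ?_
    rintro _ ⟨⟨ε, hε, rfl⟩, hx⟩
    exact ⟨ε, ⟨hε, hRsub ε hε hx⟩, rfl⟩

/-- **Theorem.** Every `T1` space with a base of subinfinite rank is hereditarily metacompact.  The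
`T1` assumption cannot be dropped: there is a `T0` space with a base which is totally ordered by
inclusion (hence of subinfinite rank) that is not metacompact. -/
theorem result :
    (∀ (X : Type u) [TopologicalSpace X] [T1Space X] (B : Set (Set X)),
      IsTopologicalBasis B → HasSubinfiniteRank B → Metacompact X ∧ ∀ Y : Set X, Metacompact Y) ∧
    ∃ (X : Type) (_ : TopologicalSpace X), T0Space X ∧
      (∃ B : Set (Set X), IsTopologicalBasis B ∧ HasSubinfiniteRank B ∧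
        ∀ U ∈ B, ∀ V ∈ B, U ⊆ V ∨ V ⊆ U) ∧ ¬ Metacompact X := by
  constructor
  · intro X _ _ B hB hr
    refine ⟨main X B hB hr, fun Y => main Y ((fun b : Set X => ((↑) : Y → X) ⁻¹' b) '' B) ?_ ?_⟩
    · exact hB.induced _
    · intro A hA hinc hne
      classical
      have hA' : ∀ a ∈ A, ∃ b : Set X, b ∈ B ∧ ((↑) : Y → X) ⁻¹' b = a := hA
      choose! f hf using hA'
      have hfin : (f '' A).Finite := by
        refine hr (f '' A) ?_ ?_ ?_
        · rintro _ ⟨a, ha, rfl⟩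
          exact (hf a ha).1
        · rintro _ ⟨a, ha, rfl⟩ _ ⟨b, hb, rfl⟩ h
          have h1 : a ⊆ b := by
            rw [← (hf a ha).2, ← (hf b hb).2]
            exact preimage_mono h
          rw [hinc a ha b hb h1]
        · obtain ⟨y, hy⟩ := hne
          refine ⟨(y : X), ?_⟩
          rintro _ ⟨a, ha, rfl⟩
          have : y ∈ ((↑) : Y → X) ⁻¹' (f a) := by
            rw [(hf a ha).2]
            exact hy a ha
          exact this
      refine hfin.of_finite_image ?_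
      intro a ha b hb h
      rw [← (hf a ha).2, ← (hf b hb).2, h]
  let t : TopologicalSpace ℕ :=
    { IsOpen := fun s => IsLowerSet s
      isOpen_univ := isLowerSet_univ
      isOpen_inter := fun s u hs hu => hs.inter hu
      isOpen_sUnion := fun S hS => isLowerSet_sUnion hS }
  have hIic : ∀ n : ℕ, @IsOpen ℕ t (Set.Iic n) := fun n => isLowerSet_Iic n
  refine ⟨ℕ, t, ?_, ⟨Set.range Set.Iic, ?_, ?_, ?_⟩, ?_⟩
  · refine @T0Space.mk ℕ t fun x y hxy => ?_
    have h1 := (@inseparable_iff_forall_isOpen ℕ t x y).1 hxy (Set.Iic x) (hIic x)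
    have h2 := (@inseparable_iff_forall_isOpen ℕ t x y).1 hxy (Set.Iic y) (hIic y)
    exact le_antisymm (h2.2 (Set.mem_Iic.2 le_rfl)) (h1.1 (Set.mem_Iic.2 le_rfl))
  · refine @TopologicalSpace.isTopologicalBasis_of_isOpen_of_nhds ℕ t _ ?_ ?_
    · rintro _ ⟨n, rfl⟩
      exact hIic n
    · intro a u ha hu
      exact ⟨Set.Iic a, ⟨a, rfl⟩, Set.mem_Iic.2 le_rfl, fun b hb => hu hb ha⟩
  · intro A hA hinc _
    refine Set.Subsingleton.finite ?_
    intro U hU V hV
    obtain ⟨m, hm⟩ := hA hU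
    obtain ⟨n, hn⟩ := hA hV
    rcases le_total m n with h | h
    · refine hinc U hU V hV ?_
      rw [← hm, ← hn]
      exact Set.Iic_subset_Iic.2 h
    · refine (hinc V hV U hU ?_).symm
      rw [← hm, ← hn]
      exact Set.Iic_subset_Iic.2 h
  · rintro _ ⟨m, rfl⟩ _ ⟨n, rfl⟩
    rcases le_total m n with h | h
    · exact Or.inl (Set.Iic_subset_Iic.2 h)
    · exact Or.inr (Set.Iic_subset_Iic.2 h)
  · intro hM
    obtain ⟨𝒱, hVo, hVc, hVr, hVf⟩ := hM (Set.range Set.Iic) (by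
      rintro _ ⟨n, rfl⟩
      exact hIic n) (Set.eq_univ_of_forall fun n => ⟨Set.Iic n, ⟨n, rfl⟩, Set.mem_Iic.2 le_rfl⟩)
    have hfin := hVf 0
    have hbdd : ∀ V ∈ {V ∈ 𝒱 | (0 : ℕ) ∈ V}, V.Finite := by
      rintro V ⟨hV, _⟩
      obtain ⟨_, ⟨n, rfl⟩, hn⟩ := hVr V hV
      exact (Set.finite_Iic n).subset hn
    have hall : (Set.univ : Set ℕ) ⊆ ⋃₀ {V ∈ 𝒱 | (0 : ℕ) ∈ V} := by
      intro n _
      have hn : n ∈ ⋃₀ 𝒱 := by rw [hVc]; exact Set.mem_univ n
      obtain ⟨V, hV, hnV⟩ := hn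
      exact ⟨V, ⟨hV, (hVo V hV) (Nat.zero_le n) hnV⟩, hnV⟩
    exact Set.infinite_univ ((hfin.sUnion hbdd).subset hall)

end Pool.Agent.Results.MP_03f7b8_gt.SubinfiniteRank
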